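import Mathlib

/-!
# Changing the scale in the logarithmic energy of points of the unit disc
-/

set_option autoImplicit false

open Finset

namespace Pool.Agent.R383.Disc

/-- `1 - s ^ 2` times the Poisson kernel at `s ^ 2 u` -/
noncomputable def QQ (s : ℝ) (u : ℂ) : ℝ :=
  (1 - s ^ 2) * ((1 - ‖((s ^ 2 : ℝ) : ℂ) * u‖ ^ 2) / ‖1 - ((s ^ 2 : ℝ) : ℂ) * u‖ ^ 2)

lemma normsq_one_sub (t : ℝ) (u : ℂ) : ‖1 - (t : ℂ) * u‖ ^ 2 = 1 - 2 * t * u.re + t ^ 2 * ‖u‖ ^ 2 := by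
  rw [← Complex.normSq_eq_norm_sq, ← Complex.normSq_eq_norm_sq, Complex.normSq_apply,
    Complex.normSq_apply]
  simp
  ring

lemma norm_one_sub_ge {t : ℝ} (ht0 : 0 ≤ t) {u : ℂ} (hu : ‖u‖ ≤ 1) : 1 - t ≤ ‖1 - (t : ℂ) * u‖ := by
  have h1 := norm_sub_norm_le (1:ℂ) ((t : ℂ) * u)
  rw [norm_one, norm_mul, Complex.norm_real, Real.norm_of_nonneg ht0] at h1
  nlinarith

lemma far_real {a b c X Q : ℝ} (ha : 0 < a) (hb : 0 < b) (hc : 0 < c) (hX : 0 ≤ X)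
    (hba : b ^ 2 ≤ a ^ 2 + X) (hca : c ≤ 3 * a) (hQ : 45 / 64 * (X / c ^ 2) ≤ Q) :
    Real.log (b / a) ≤ 7 * Q := by
  have h9 : Real.log ((b / a) ^ 2) ≤ (b / a) ^ 2 - 1 := Real.log_le_sub_one_of_pos (by positivity)
  rw [Real.log_pow] at h9
  have h10 : (b / a) ^ 2 - 1 ≤ X / a ^ 2 := by
    rw [div_pow, div_sub_one (by positivity)]
    apply div_le_div_of_nonneg_right _ (by positivity)
    linarith
  have h11 : X / a ^ 2 ≤ 9 * (X / c ^ 2) := by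
    rw [← mul_div_assoc, div_le_div_iff₀ (by positivity) (by positivity)]
    have h12 : c ^ 2 ≤ (3 * a) ^ 2 := pow_le_pow_left₀ hc.le hca 2
    calc X * c ^ 2 ≤ X * (3 * a) ^ 2 := mul_le_mul_of_nonneg_left h12 hX
      _ = 9 * X * a ^ 2 := by ring
  have h16 : 0 ≤ X / c ^ 2 := by positivity
  push_cast at h9
  linarith

lemma near_real {a b c d d' Q : ℝ} (ha : d' ≤ a) (hb : 0 < b) (hd' : 0 < d') (hdd : d' ≤ d)
    (hba : b ≤ a + (d - d')) (hQ : 5 / 16 ≤ Q) :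
    Real.log (b / a) ≤ 7 * (1 + Real.log (d / d')) * Q := by
  have ha0 : 0 < a := by linarith
  have hlog : 0 ≤ Real.log (d / d') := Real.log_nonneg (by rw [le_div_iff₀ hd']; linarith)
  have h6 : b / a ≤ d / d' := by
    rw [div_le_div_iff₀ ha0 hd']
    nlinarith
  have h7 : Real.log (b / a) ≤ Real.log (d / d') := Real.log_le_log (by positivity) h6
  refine h7.trans ?_
  have h8 : Real.log (d / d') * (5 / 16) ≤ Real.log (d / d') * Q :=
    mul_le_mul_of_nonneg_left hQ hlog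
  have h9 : 7 * (1 + Real.log (d / d')) * Q = 7 * Q + 7 * (Real.log (d / d') * Q) := by ring
  rw [h9]
  linarith

lemma num_bound {s r d : ℝ} (hs : 1 / 2 ≤ s) (hs1 : s < 1) (hr0 : 0 ≤ r) (hr1 : r ≤ 1)
    (hd : d = 1 - s) :
    3 / 2 * d ≤ 1 - s ^ 2 ∧ 15 / 8 * d ≤ 1 - s ^ 4 * r ^ 2 ∧
      15 / 32 * (1 - r ^ 2 + 2 * d) ≤ 1 - s ^ 4 * r ^ 2 := by
  have hs0 : 0 ≤ s := by linarith
  have hd0 : 0 < d := by linarith
  have hr2 : r ^ 2 ≤ 1 := pow_le_one₀ hr0 hr1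
  have hs4 : 15 / 8 * d ≤ 1 - s ^ 4 := by
    have e : 1 - s ^ 4 = d * ((1 + s) * (1 + s ^ 2)) := by rw [hd]; ring
    rw [e, mul_comm]
    apply mul_le_mul_of_nonneg_left _ hd0.le
    nlinarith
  have h1 : s ^ 4 * r ^ 2 ≤ 1 * r ^ 2 := by
    apply mul_le_mul_of_nonneg_right _ (by positivity)
    exact pow_le_one₀ hs0 (by linarith)
  have h2 : s ^ 4 * r ^ 2 ≤ s ^ 4 * 1 := mul_le_mul_of_nonneg_left hr2 (by positivity)
  refine ⟨?_, ?_, ?_⟩
  · rw [hd]; nlinarith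
  · linarith
  · linarith

lemma diff_bound {s s' : ℝ} (hs : 1 / 2 ≤ s) (hss : s ≤ s') (hs1 : s' < 1) {u : ℂ} (hu : ‖u‖ ≤ 1) :
    ‖1 - (s : ℂ) * u‖ ^ 2 ≤ ‖1 - (s' : ℂ) * u‖ ^ 2 + (1 - s) * (1 - ‖u‖ ^ 2 + 2 * (1 - s)) := by
  have hr0 : 0 ≤ ‖u‖ := norm_nonneg _
  have hr2 : ‖u‖ ^ 2 ≤ 1 := pow_le_one₀ hr0 hu
  rw [normsq_one_sub, normsq_one_sub]
  set r := ‖u‖ with hr
  have h3 : 2 * u.re ≤ 1 + r ^ 2 := by
    have h4 := normsq_one_sub 1 u
    have h5 : 0 ≤ ‖1 - ((1:ℝ) : ℂ) * u‖ ^ 2 := by positivity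
    rw [h4, ← hr] at h5
    linarith
  have h2 : (2 - s - s') * r ^ 2 ≤ 2 * (1 - s) * 1 := by
    apply mul_le_mul (by linarith) hr2 (by positivity) (by linarith)
  have h6 : (s' - s) * (2 * u.re - (s + s') * r ^ 2) ≤ (s' - s) * (1 - r ^ 2 + 2 * (1 - s)) := by
    apply mul_le_mul_of_nonneg_left _ (by linarith)
    linarith
  have h7 : (s' - s) * (1 - r ^ 2 + 2 * (1 - s)) ≤ (1 - s) * (1 - r ^ 2 + 2 * (1 - s)) := by
    apply mul_le_mul_of_nonneg_right (by linarith)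
    linarith
  have e : 1 - 2 * s * u.re + s ^ 2 * r ^ 2 - (1 - 2 * s' * u.re + s' ^ 2 * r ^ 2) =
      (s' - s) * (2 * u.re - (s + s') * r ^ 2) := by ring
  linarith

lemma kernel {s s' : ℝ} (hs : 1 / 2 ≤ s) (hss : s ≤ s') (hs1 : s' < 1) {u : ℂ} (hu : ‖u‖ ≤ 1) :
    -Real.log ‖1 - (s' : ℂ) * u‖ ≤ -Real.log ‖1 - (s : ℂ) * u‖ +
      7 * (1 + Real.log ((1 - s) / (1 - s'))) * QQ s u := by
  have hs0 : 0 ≤ s := by linarith
  have hs'0 : 0 ≤ s' := by linarith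
  have hdiff := diff_bound hs hss hs1 hu
  obtain ⟨a, ha⟩ : ∃ a, a = ‖1 - (s' : ℂ) * u‖ := ⟨_, rfl⟩
  obtain ⟨b, hb⟩ : ∃ b, b = ‖1 - (s : ℂ) * u‖ := ⟨_, rfl⟩
  obtain ⟨c, hc⟩ : ∃ c, c = ‖1 - ((s ^ 2 : ℝ) : ℂ) * u‖ := ⟨_, rfl⟩
  obtain ⟨r, hr⟩ : ∃ r, r = ‖u‖ := ⟨_, rfl⟩
  have hr0 : 0 ≤ r := by rw [hr]; exact norm_nonneg _
  have hr1 : r ≤ 1 := by rw [hr]; exact hu
  have ha1 : 1 - s' ≤ a := by rw [ha]; exact norm_one_sub_ge hs'0 hu
  have hb1 : 1 - s ≤ b := by rw [hb]; exact norm_one_sub_ge hs0 hu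
  have hc1 : c ≤ a + 2 * (1 - s) := by
    have e : (1:ℂ) - ((s ^ 2 : ℝ) : ℂ) * u = (1 - (s' : ℂ) * u) + ((s' - s ^ 2 : ℝ) : ℂ) * u := by
      push_cast; ring
    rw [hc, ha, e]
    refine (norm_add_le _ _).trans ?_
    have h1 : 0 ≤ s' - s ^ 2 := by nlinarith
    rw [norm_mul, Complex.norm_real, Real.norm_of_nonneg h1]
    have h2 : (s' - s ^ 2) * ‖u‖ ≤ (s' - s ^ 2) * 1 := mul_le_mul_of_nonneg_left hu h1
    nlinarith
  have hc2 : 1 - s ^ 2 ≤ c := by rw [hc]; exact norm_one_sub_ge (by positivity) hu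
  have h5 : b ≤ a + ((1 - s) - (1 - s')) := by
    have e : (1:ℂ) - (s : ℂ) * u = (1 - (s' : ℂ) * u) + ((s' - s : ℝ) : ℂ) * u := by
      push_cast; ring
    rw [hb, ha, e]
    refine (norm_add_le _ _).trans ?_
    rw [norm_mul, Complex.norm_real, Real.norm_of_nonneg (by linarith)]
    have h2 : (s' - s) * ‖u‖ ≤ (s' - s) * 1 := mul_le_mul_of_nonneg_left hu (by linarith)
    linarith
  obtain ⟨d, hd⟩ : ∃ d, d = 1 - s := ⟨_, rfl⟩
  obtain ⟨h1s2, hn2, hn1⟩ := num_bound hs (lt_of_le_of_lt hss hs1) hr0 hr1 hd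
  have hnum : ‖((s ^ 2 : ℝ) : ℂ) * u‖ ^ 2 = s ^ 4 * r ^ 2 := by
    rw [norm_mul, Complex.norm_real, Real.norm_of_nonneg (by positivity), hr]; ring
  have hQ : QQ s u = (1 - s ^ 2) * ((1 - s ^ 4 * r ^ 2) / c ^ 2) := by
    unfold QQ
    rw [hnum, hc]
  rw [← ha, ← hb, ← hr] at hdiff
  rw [← ha, ← hb]
  rw [← hd] at hb1 hc1 hdiff h5 ⊢
  have hd0 : 0 < d := by linarith
  have hd'0 : 0 < 1 - s' := by linarith
  have ha0 : 0 < a := by linarith
  have hb0 : 0 < b := by linarith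
  have hc0 : 0 < c := by linarith
  have hlogba : -Real.log a = -Real.log b + (Real.log b - Real.log a) := by ring
  rw [hlogba]
  apply add_le_add le_rfl
  rw [← Real.log_div hb0.ne' ha0.ne']
  have hlog : 0 ≤ Real.log (d / (1 - s')) := Real.log_nonneg (by rw [le_div_iff₀ hd'0]; linarith)
  have hr2 : r ^ 2 ≤ 1 := pow_le_one₀ hr0 hr1
  rcases le_or_gt d a with hda | hda
  · -- far from the singularity
    have h14 : 45 / 64 * (d * (1 - r ^ 2 + 2 * d) / c ^ 2) ≤ QQ s u := by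
      rw [hQ, ← mul_div_assoc, ← mul_div_assoc]
      apply div_le_div_of_nonneg_right _ (by positivity)
      have h15 : (3 / 2 * d) * (15 / 32 * (1 - r ^ 2 + 2 * d)) ≤ (1 - s ^ 2) * (1 - s ^ 4 * r ^ 2) := by
        apply mul_le_mul h1s2 hn1 (by linarith) (by linarith)
      linarith
    have hX : 0 ≤ d * (1 - r ^ 2 + 2 * d) := mul_nonneg hd0.le (by linarith)
    have h := far_real ha0 hb0 hc0 hX hdiff (by linarith) h14
    have hQ0 : 0 ≤ QQ s u := le_trans (by positivity) h14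
    refine h.trans ?_
    apply mul_le_mul_of_nonneg_right _ hQ0
    linarith
  · -- near the singularity
    have hc3 : c ≤ 3 * d := by linarith
    have hQ1 : 5 / 16 ≤ QQ s u := by
      rw [hQ, ← mul_div_assoc, le_div_iff₀ (by positivity)]
      have h3 : (3 / 2 * d) * (15 / 8 * d) ≤ (1 - s ^ 2) * (1 - s ^ 4 * r ^ 2) :=
        mul_le_mul h1s2 hn2 (by positivity) (by linarith)
      have h4 : c ^ 2 ≤ (3 * d) ^ 2 := pow_le_pow_left₀ hc0.le hc3 2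
      nlinarith
    exact near_real (c := c) ha1 hb0 hd'0 (by linarith) h5 hQ1

lemma poisson_hasSum {z : ℂ} (hz : ‖z‖ < 1) :
    HasSum (fun k : ℕ => 2 * (z ^ k).re) ((1 - ‖z‖ ^ 2) / ‖1 - z‖ ^ 2 + 1) := by
  have h1 := (Complex.hasSum_re (hasSum_geometric_of_norm_lt_one hz)).mul_left 2
  have h0 : (1:ℂ) - z ≠ 0 := by
    intro h
    rw [sub_eq_zero] at h
    rw [← h, norm_one] at hz
    exact lt_irrefl _ hz
  have hn : 0 < ‖1 - z‖ ^ 2 := by positivity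
  have e : (1 - ‖z‖ ^ 2) / ‖1 - z‖ ^ 2 + 1 = 2 * ((1 - z)⁻¹).re := by
    rw [Complex.inv_re, Complex.normSq_eq_norm_sq, div_add_one hn.ne', ← mul_div_assoc]
    congr 1
    rw [← Complex.normSq_eq_norm_sq, ← Complex.normSq_eq_norm_sq, Complex.normSq_apply,
      Complex.normSq_apply]
    simp
    ring
  rw [e]
  exact h1

variable {ι : Type*} [Fintype ι]

/-- the regularized logarithmic energy -/
noncomputable def En (b : ι → ℂ) (s : ℝ) : ℝ :=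
  ∑ i, ∑ j, -Real.log ‖1 - (s : ℂ) * (b i * starRingEnd ℂ (b j))‖

lemma re_sum_pow (b : ι → ℂ) (t : ℝ) (n : ℕ) :
    ∑ i, ∑ j, (((t : ℂ) * (b i * starRingEnd ℂ (b j))) ^ n).re = t ^ n * ‖∑ i, b i ^ n‖ ^ 2 := by
  have e2 : ∑ i, ∑ j, ((t : ℂ) * (b i * starRingEnd ℂ (b j))) ^ n =
      ((t ^ n : ℝ) : ℂ) * ((∑ i, b i ^ n) * starRingEnd ℂ (∑ i, b i ^ n)) := by
    rw [map_sum, Finset.sum_mul_sum, Finset.mul_sum]
    refine Finset.sum_congr rfl fun i _ => ?_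
    rw [Finset.mul_sum]
    refine Finset.sum_congr rfl fun j _ => ?_
    rw [map_pow]
    push_cast
    ring
  have e1 : ∑ i, ∑ j, (((t : ℂ) * (b i * starRingEnd ℂ (b j))) ^ n).re =
      (∑ i, ∑ j, ((t : ℂ) * (b i * starRingEnd ℂ (b j))) ^ n).re := by
    rw [Complex.re_sum]
    refine Finset.sum_congr rfl fun i _ => ?_
    rw [Complex.re_sum]
  rw [e1, e2, Complex.mul_conj, Complex.normSq_eq_norm_sq, ← Complex.ofReal_mul, Complex.ofReal_re]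

lemma norm_lt {b : ι → ℂ} (hb : ∀ i, ‖b i‖ ≤ 1) {t : ℝ} (ht0 : 0 ≤ t) (ht1 : t < 1) (i j : ι) :
    ‖(t : ℂ) * (b i * starRingEnd ℂ (b j))‖ < 1 := by
  rw [norm_mul, norm_mul, RCLike.norm_conj, Complex.norm_real, Real.norm_of_nonneg ht0]
  have h1 : ‖b i‖ * ‖b j‖ ≤ 1 := mul_le_one₀ (hb i) (norm_nonneg _) (hb j)
  nlinarith [mul_nonneg (norm_nonneg (b i)) (norm_nonneg (b j))]

lemma hasSum_En {b : ι → ℂ} (hb : ∀ i, ‖b i‖ ≤ 1) {s : ℝ} (hs0 : 0 ≤ s) (hs1 : s < 1) :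
    HasSum (fun n : ℕ => s ^ n * ‖∑ i, b i ^ n‖ ^ 2 / n) (En b s) := by
  have h : ∀ i j, HasSum (fun n : ℕ => (((s : ℂ) * (b i * starRingEnd ℂ (b j))) ^ n).re / n)
      (-Real.log ‖1 - (s : ℂ) * (b i * starRingEnd ℂ (b j))‖) := by
    intro i j
    have h1 := Complex.hasSum_re (Complex.hasSum_taylorSeries_neg_log (norm_lt hb hs0 hs1 i j))
    rw [Complex.neg_re, Complex.log_re] at h1
    have e : (fun n : ℕ => (((s : ℂ) * (b i * starRingEnd ℂ (b j))) ^ n).re / n) =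
        fun n : ℕ => (((s : ℂ) * (b i * starRingEnd ℂ (b j))) ^ n / n).re := by
      funext n
      rw [← Complex.ofReal_natCast n, Complex.div_ofReal_re]
    rw [e]
    exact h1
  have h2 := hasSum_sum (s := Finset.univ) fun i (_ : i ∈ (Finset.univ : Finset ι)) =>
    hasSum_sum (s := Finset.univ) fun j (_ : j ∈ (Finset.univ : Finset ι)) => h i j
  have e : (fun n : ℕ => s ^ n * ‖∑ i, b i ^ n‖ ^ 2 / n) =
      fun n : ℕ => ∑ i, ∑ j, (((s : ℂ) * (b i * starRingEnd ℂ (b j))) ^ n).re / n := by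
    funext n
    rw [← re_sum_pow, Finset.sum_div]
    refine Finset.sum_congr rfl fun i _ => ?_
    rw [Finset.sum_div]
  rw [e]
  exact h2

lemma En_nonneg {b : ι → ℂ} (hb : ∀ i, ‖b i‖ ≤ 1) {s : ℝ} (hs0 : 0 ≤ s) (hs1 : s < 1) :
    0 ≤ En b s :=
  (hasSum_En hb hs0 hs1).nonneg fun n => by positivity

lemma En_mono {b : ι → ℂ} (hb : ∀ i, ‖b i‖ ≤ 1) {s t : ℝ} (hs0 : 0 ≤ s) (hst : s ≤ t) (ht1 : t < 1) :
    En b s ≤ En b t := by
  refine hasSum_le ?_ (hasSum_En hb hs0 (lt_of_le_of_lt hst ht1)) (hasSum_En hb (hs0.trans hst) ht1)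
  intro n
  gcongr

lemma sum_QQ {b : ι → ℂ} (hb : ∀ i, ‖b i‖ ≤ 1) {s : ℝ} (hs0 : 0 ≤ s) (hs1 : s < 1) :
    ∑ i, ∑ j, QQ s (b i * starRingEnd ℂ (b j)) ≤
      2 * (1 - s) * (Fintype.card ι : ℝ) ^ 2 + 4 * En b s := by
  have ht0 : 0 ≤ s ^ 2 := by positivity
  have ht1 : s ^ 2 < 1 := by nlinarith
  have h1 := hasSum_sum (s := Finset.univ) fun i (_ : i ∈ (Finset.univ : Finset ι)) =>
    hasSum_sum (s := Finset.univ) fun j (_ : j ∈ (Finset.univ : Finset ι)) =>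
      poisson_hasSum (norm_lt hb ht0 ht1 i j)
  have e : (fun n : ℕ => ∑ i, ∑ j, 2 * ((((s ^ 2 : ℝ) : ℂ) * (b i * starRingEnd ℂ (b j))) ^ n).re) =
      fun n : ℕ => 2 * ((s ^ 2) ^ n * ‖∑ i, b i ^ n‖ ^ 2) := by
    funext n
    rw [← re_sum_pow, Finset.mul_sum]
    refine Finset.sum_congr rfl fun i _ => ?_
    rw [Finset.mul_sum]
  rw [e] at h1
  have h2 := ((hasSum_En hb hs0 hs1).mul_left (2 / (1 - s))).add
    (hasSum_ite_eq 0 (2 * (Fintype.card ι : ℝ) ^ 2))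
  have hd : 0 < 1 - s := by linarith
  have h3 := hasSum_le (fun n => ?_) h1 h2
  · have hd2 : 0 ≤ 1 - s ^ 2 := by linarith
    have h4 : ∑ i, ∑ j, QQ s (b i * starRingEnd ℂ (b j)) = (1 - s ^ 2) *
        (∑ i, ∑ j, ((1 - ‖((s ^ 2 : ℝ) : ℂ) * (b i * starRingEnd ℂ (b j))‖ ^ 2) /
          ‖1 - ((s ^ 2 : ℝ) : ℂ) * (b i * starRingEnd ℂ (b j))‖ ^ 2 + 1) -
          (Fintype.card ι : ℝ) ^ 2) := by
      simp only [Finset.sum_add_distrib, Finset.sum_const, Finset.card_univ, nsmul_eq_mul, mul_one]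
      rw [pow_two (Fintype.card ι : ℝ), add_sub_cancel_right, Finset.mul_sum]
      refine Finset.sum_congr rfl fun i _ => ?_
      rw [Finset.mul_sum]
      rfl
    rw [h4]
    calc _ ≤ (1 - s ^ 2) * (2 / (1 - s) * En b s + 2 * (Fintype.card ι : ℝ) ^ 2 -
          (Fintype.card ι : ℝ) ^ 2) := by
          apply mul_le_mul_of_nonneg_left _ hd2
          linarith
      _ = (1 + s) * ((1 - s) * (Fintype.card ι : ℝ) ^ 2 + 2 * En b s) := by
          field_simp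
          ring
      _ ≤ 2 * ((1 - s) * (Fintype.card ι : ℝ) ^ 2 + 2 * En b s) := by
          apply mul_le_mul_of_nonneg_right _ _
          · linarith
          · have := En_nonneg hb hs0 hs1
            positivity
      _ = _ := by ring
  · rcases Nat.eq_zero_or_pos n with rfl | hn
    · simp
    · rw [if_neg hn.ne', add_zero]
      have hn' : (0:ℝ) < n := by exact_mod_cast hn
      have h5 : (n:ℝ) * s ^ n ≤ 1 / (1 - s) := by
        have h6 : (n:ℝ) * s ^ n ≤ ∑ k ∈ Finset.range n, s ^ k := by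
          rw [← nsmul_eq_mul]
          have h7 := Finset.card_nsmul_le_sum (Finset.range n) (fun k => s ^ k) (s ^ n) (by
            intro k hk
            exact pow_le_pow_of_le_one hs0 hs1.le (Finset.mem_range.mp hk).le)
          rwa [Finset.card_range] at h7
        have h8 : ∑ k ∈ Finset.range n, s ^ k ≤ 1 / (1 - s) := by
          have h9 := mul_neg_geom_sum s n
          rw [le_div_iff₀ hd, mul_comm, h9]
          have : 0 ≤ s ^ n := by positivity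
          linarith
        exact h6.trans h8
      have e2 : 2 / (1 - s) * (s ^ n * ‖∑ i, b i ^ n‖ ^ 2 / n) =
          2 * (s ^ n * (1 / (1 - s) / n) * ‖∑ i, b i ^ n‖ ^ 2) := by ring
      rw [e2]
      apply mul_le_mul_of_nonneg_left _ (by norm_num)
      apply mul_le_mul_of_nonneg_right _ (by positivity)
      rw [← pow_mul, mul_comm 2 n, pow_mul, pow_two]
      apply mul_le_mul_of_nonneg_left _ (by positivity)
      rw [le_div_iff₀ hn', mul_comm]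
      exact h5

/-- the energy at a finer scale -/
theorem scale {b : ι → ℂ} (hb : ∀ i, ‖b i‖ ≤ 1) {s s' : ℝ} (hs : 1 / 2 ≤ s) (hss : s ≤ s')
    (hs1 : s' < 1) :
    En b s' ≤ En b s + 7 * (1 + Real.log ((1 - s) / (1 - s'))) *
      (2 * (1 - s) * (Fintype.card ι : ℝ) ^ 2 + 4 * En b s) := by
  have hlog : 0 ≤ Real.log ((1 - s) / (1 - s')) :=
    Real.log_nonneg (by rw [le_div_iff₀ (by linarith)]; linarith)
  have h1 : En b s' ≤ ∑ i, ∑ j, (-Real.log ‖1 - (s : ℂ) * (b i * starRingEnd ℂ (b j))‖ +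
      7 * (1 + Real.log ((1 - s) / (1 - s'))) * QQ s (b i * starRingEnd ℂ (b j))) := by
    unfold En
    refine Finset.sum_le_sum fun i _ => Finset.sum_le_sum fun j _ => ?_
    apply kernel hs hss hs1
    rw [norm_mul, RCLike.norm_conj]
    exact mul_le_one₀ (hb i) (norm_nonneg _) (hb j)
  refine h1.trans ?_
  simp only [Finset.sum_add_distrib, ← Finset.mul_sum]
  apply add_le_add le_rfl
  apply mul_le_mul_of_nonneg_left _ (by positivity)
  exact sum_QQ hb (by linarith) (by linarith)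

end Pool.Agent.R383.Disc
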