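import Mathlib
import Pool.Agent.Y947.DP.Fin
import Pool.Agent.R383.Disc.Scale

/-!
# Lower bounds for the Mahler measure in terms of the regularized energy of the zeros
-/

set_option autoImplicit false

open Finset Polynomial Module Pool.Agent.H388SL Pool.Agent.Y947.DL Pool.Agent.Y947.DM
  Pool.Agent.Y947.DP

namespace Pool.Agent.R383.Disc

/-- the complex zeros of an integer polynomial -/
noncomputable def zs (f : ℤ[X]) : Multiset ℂ := (f.map (Int.castRingHom ℂ)).roots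

/-- regularized energy of the zeros -/
noncomputable def Ep (f : ℤ[X]) (s : ℝ) : ℝ :=
  ((zs f).map fun z => ((zs f).map fun w =>
    -Real.log ‖1 - (s : ℂ) * (H388SL.refl z * starRingEnd ℂ (H388SL.refl w))‖).sum).sum

section Rep

variable {p : ℤ[X]} {K : Type} [Field K] [NumberField K] {α : K}

lemma zs_rep (h : Rep p K α) : zs p = Finset.univ.val.map (fun τ : K →ₐ[ℚ] ℂ => τ α) := by
  unfold zs
  rw [h.map_eq, Finset.prod_eq_multiset_prod]
  have e : (Multiset.map (fun τ : K →ₐ[ℚ] ℂ => X - C (τ α)) Finset.univ.val) =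
      Multiset.map (fun a : ℂ => X - C a) (Multiset.map (fun τ : K →ₐ[ℚ] ℂ => τ α) Finset.univ.val) := by
    rw [Multiset.map_map]; rfl
  rw [e, Polynomial.roots_multiset_prod_X_sub_C]

lemma sum_zs (h : Rep p K α) (F : ℂ → ℝ) : ((zs p).map F).sum = ∑ σ : K →ₐ[ℚ] ℂ, F (σ α) := by
  rw [zs_rep h, Multiset.map_map]
  rfl

lemma Ep_rep (h : Rep p K α) (s : ℝ) :
    Ep p s = En (fun σ : K →ₐ[ℚ] ℂ => H388SL.refl (σ α)) s := by
  unfold Ep En
  rw [sum_zs h]
  refine Finset.sum_congr rfl fun σ _ => ?_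
  rw [sum_zs h]

lemma two_le_fin (h : Rep p K α) (hc0 : |p.coeff 0| = 1) (hM : 1 < MM p) : 2 ≤ finrank ℚ K := by
  by_contra hcon
  have h1 : 0 < finrank ℚ K := finrank_pos
  have h2 : finrank ℚ K = 1 := by omega
  have hcard : Fintype.card (K →ₐ[ℚ] ℂ) = 1 := by rw [← h2]; exact AlgHom.card ℚ K ℂ
  obtain ⟨σ, hσ⟩ := Fintype.card_eq_one_iff.mp hcard
  have hu : (Finset.univ : Finset (K →ₐ[ℚ] ℂ)) = {σ} := by
    ext τ; simp [hσ τ]
  have h3 := h.prod_norm hc0
  rw [hu, Finset.prod_singleton] at h3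
  have h4 := h.log_MM
  unfold lam at h4
  rw [hu, Finset.sum_singleton, h3, max_self, Real.log_one] at h4
  have := Real.log_pos hM
  linarith

/-- the bound for a represented polynomial -/
lemma rep_main {c : ℝ} (hc : ∀ (K : Type) [Field K] [NumberField K] (α : K), IsIntegral ℤ α →
    α ≠ 0 → (∀ n : ℕ, 0 < n → α ^ n ≠ 1) → CInj α → (∏ σ : K →ₐ[ℚ] ℂ, ‖σ α‖ = 1) →
    (∀ p : ℕ, p.Prime → p ≠ 2 → Good α p) →
    ∀ B : ℝ, 1 ≤ B →
    (lam α ≤ 1 → ∀ κ : ℝ, 0 < κ → κ ≤ 1 → ∃ ε : (K →ₐ[ℚ] ℂ) → ℝ, (∀ σ, 0 < ε σ ∧ ε σ ≤ 1 / 2) ∧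
      ∑ σ, ε σ ≤ κ * (63000000 * B) ∧
      EE α ε 1 1 ≤ finrank ℚ K * (2 * 10 ^ 9 * B * (1 + Real.log (1 / κ)))) →
    c / B ^ 3 ≤ lam α)
    (h : Rep p K α)
    (hc0 : |p.coeff 0| = 1) (hM : 1 < MM p)
    (hgood : ∀ q : ℕ, q.Prime → q ≠ 2 → Good α q) {B : ℝ} (hB : 1 ≤ B)
    (hE : Ep p (1 - 1 / p.natDegree) ≤ p.natDegree * B) :
    c / B ^ 3 ≤ Real.log (MM p) := by
  rw [h.log_MM]
  have hn2 := two_le_fin h hc0 hM
  rw [Ep_rep h, ← h.fin] at hE
  apply hc K α h.isInt (h.ne_zero hc0) (h.not_root hM) h.inj (h.prod_norm hc0) hgood B hB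
  intro _ κ hκ0 hκ1
  obtain ⟨n, hn⟩ : ∃ n : ℝ, n = finrank ℚ K := ⟨_, rfl⟩
  have hn2' : (2:ℝ) ≤ n := by rw [hn]; exact_mod_cast hn2
  rw [← hn] at hE ⊢
  have hcard : (Fintype.card (K →ₐ[ℚ] ℂ) : ℝ) = n := by
    rw [hn]; exact_mod_cast AlgHom.card ℚ K ℂ
  set b : (K →ₐ[ℚ] ℂ) → ℂ := fun σ => H388SL.refl (σ α) with hbdef
  have hb : ∀ σ : K →ₐ[ℚ] ℂ, ‖b σ‖ ≤ 1 := fun σ => norm_refl_le _
  have hn0 : 0 < n := by linarith
  set e := κ / (2 * n) with he
  have he0 : 0 < e := by positivity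
  have he1 : e ≤ 1 / (2 * n) := div_le_div_of_nonneg_right hκ1 (by positivity)
  have he2 : 1 / (2 * n) ≤ 1 / 4 := one_div_le_one_div_of_le (by norm_num) (by linarith)
  refine ⟨fun _ => e, fun _ => ⟨he0, by linarith⟩, ?_, ?_⟩
  · rw [Finset.sum_const, Finset.card_univ, nsmul_eq_mul, hcard]
    have : n * e = κ / 2 := by rw [he]; field_simp
    rw [this]
    nlinarith
  · have e1 : EE α (fun _ => e) 1 1 = En b ((1 - e) ^ 2) := by
      unfold EE En
      refine Finset.sum_congr rfl fun σ _ => Finset.sum_congr rfl fun τ _ => ?_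
      rw [ww_mul α _ σ τ one_ne_zero one_ne_zero]
      simp only [pow_one, pow_two]
      rfl
    rw [e1]
    have hn1 : 1 / n ≤ 1 / 2 := one_div_le_one_div_of_le (by norm_num) hn2'
    have h2e : 2 * e ≤ 1 / n := by
      have : 2 * (1 / (2 * n)) = 1 / n := by field_simp
      linarith
    have hs : 1 / 2 ≤ 1 - 1 / n := by linarith
    have hss : 1 - 1 / n ≤ (1 - e) ^ 2 := by nlinarith
    have hs1 : (1 - e) ^ 2 < 1 := by nlinarith
    have h1 := scale hb hs hss hs1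
    rw [hcard] at h1
    have hδ : e ≤ 1 - (1 - e) ^ 2 := by nlinarith
    have hlog0 : 0 ≤ Real.log (1 / κ) := Real.log_nonneg (by rw [le_div_iff₀ hκ0]; linarith)
    have hlog : Real.log ((1 - (1 - 1 / n)) / (1 - (1 - e) ^ 2)) ≤ 1 + Real.log (1 / κ) := by
      have h2 : (1 - (1 - 1 / n)) / (1 - (1 - e) ^ 2) ≤ 2 * (1 / κ) := by
        rw [div_le_iff₀ (by linarith)]
        calc 1 - (1 - 1 / n) = 2 * (1 / κ) * e := by rw [he]; field_simp; ring
          _ ≤ _ := mul_le_mul_of_nonneg_left hδ (by positivity)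
      have h3 : 0 < (1 - (1 - 1 / n)) / (1 - (1 - e) ^ 2) := by
        apply div_pos _ (by linarith)
        have : 0 < 1 / n := by positivity
        linarith
      have h4 := Real.log_le_log h3 h2
      rw [Real.log_mul (by norm_num) (by positivity)] at h4
      have := Real.log_two_lt_d9
      linarith
    refine h1.trans ?_
    have hEn0 : 0 ≤ En b (1 - 1 / n) := En_nonneg hb (by linarith) (by linarith)
    have h5 : 2 * (1 - (1 - 1 / n)) * n ^ 2 + 4 * En b (1 - 1 / n) ≤ 6 * (n * B) := by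
      have : 2 * (1 - (1 - 1 / n)) * n ^ 2 = 2 * n := by field_simp; ring
      rw [this]
      nlinarith
    have h6 : 7 * (1 + Real.log ((1 - (1 - 1 / n)) / (1 - (1 - e) ^ 2))) *
        (2 * (1 - (1 - 1 / n)) * n ^ 2 + 4 * En b (1 - 1 / n)) ≤
        7 * (2 + Real.log (1 / κ)) * (6 * (n * B)) := by
      apply mul_le_mul _ h5 _ (by positivity)
      · linarith
      · have : 0 ≤ 1 - (1 - 1 / n) := by
          have : 0 < 1 / n := by positivity
          linarith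
        positivity
    have h7 : 0 ≤ n * B := by positivity
    have h8 : 0 ≤ n * B * Real.log (1 / κ) := mul_nonneg h7 hlog0
    nlinarith

end Rep

/-- a chosen root -/
noncomputable def rt {q : ℕ} (hq : 0 < q) (a : ℂ) : ℂ :=
  Classical.choose (IsAlgClosed.exists_pow_nat_eq a hq)

lemma rt_pow {q : ℕ} (hq : 0 < q) (a : ℂ) : rt hq a ^ q = a :=
  Classical.choose_spec (IsAlgClosed.exists_pow_nat_eq a hq)

lemma zs_expand {q : ℕ} (hq : 0 < q) {g : ℤ[X]} (hg : g.Monic) :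
    zs (expand ℤ q g) = (zs g).bind fun a =>
      (nthRootsFinset q (1:ℂ)).val.map fun ζ => ζ * rt hq a := by
  unfold zs
  rw [Polynomial.map_expand]
  have hs : (g.map (Int.castRingHom ℂ)).Splits := IsAlgClosed.splits _
  have hm : (g.map (Int.castRingHom ℂ)).Monic := hg.map _
  have h1 := hs.eq_prod_roots_of_monic hm
  set S := (g.map (Int.castRingHom ℂ)).roots with hS
  have h2 : expand ℂ q (g.map (Int.castRingHom ℂ)) =
      (Multiset.map (fun a : ℂ => X - C a) (S.bind fun a =>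
        (nthRootsFinset q (1:ℂ)).val.map fun ζ => ζ * rt hq a)).prod := by
    rw [h1, map_multiset_prod, Multiset.map_map, Multiset.map_bind, Multiset.prod_bind]
    congr 1
    refine Multiset.map_congr rfl fun a _ => ?_
    simp only [Function.comp_apply, map_sub, expand_X, expand_C]
    rw [Multiset.map_map]
    have h3 := X_pow_sub_C_eq hq (rt hq a)
    rw [rt_pow] at h3
    rw [h3]
    rfl
  rw [h2, Polynomial.roots_multiset_prod_X_sub_C]

lemma sum_rot {q : ℕ} (hq : 0 < q) {x : ℂ} (hx : ‖x‖ < 1) :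
    ∑ ζ ∈ nthRootsFinset q (1:ℂ), -Real.log ‖1 - ζ * x‖ = -Real.log ‖1 - x ^ q‖ := by
  have hprim := Complex.isPrimitiveRoot_exp q hq.ne'
  have h1 := hprim.pow_sub_pow_eq_prod_sub_mul 1 x hq
  rw [one_pow] at h1
  rw [Finset.sum_neg_distrib, h1, norm_prod, Real.log_prod]
  intro ζ hζ h0
  have h2 : ‖ζ‖ = 1 := norm_of_mem_grid hq hζ
  rw [norm_eq_zero, sub_eq_zero] at h0
  have h3 : ‖ζ * x‖ = 1 := by rw [← h0, norm_one]
  rw [norm_mul, h2, one_mul] at h3
  linarith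

lemma Ep_expand {q : ℕ} (hq : 0 < q) {g : ℤ[X]} (hg : g.Monic) {s : ℝ} (hs0 : 0 ≤ s) (hs1 : s < 1) :
    Ep (expand ℤ q g) s = q * Ep g (s ^ q) := by
  unfold Ep
  rw [zs_expand hq hg]
  rw [Multiset.map_bind, Multiset.sum_bind, ← Multiset.sum_map_mul_left]
  congr 1
  refine Multiset.map_congr rfl fun a _ => ?_
  rw [Multiset.map_map]
  have key : ∀ ζ ∈ nthRootsFinset q (1:ℂ), (((zs g).bind fun a =>
      (nthRootsFinset q (1:ℂ)).val.map fun ζ => ζ * rt hq a).map fun w =>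
        -Real.log ‖1 - (s : ℂ) * (H388SL.refl (ζ * rt hq a) * starRingEnd ℂ (H388SL.refl w))‖).sum =
      ((zs g).map fun w => -Real.log ‖1 - ((s ^ q : ℝ) : ℂ) *
        (H388SL.refl a * starRingEnd ℂ (H388SL.refl w))‖).sum := by
    intro ζ hζ
    rw [Multiset.map_bind, Multiset.sum_bind]
    congr 1
    refine Multiset.map_congr rfl fun w _ => ?_
    rw [Multiset.map_map]
    have hζ1 : ‖ζ‖ = 1 := norm_of_mem_grid hq hζ
    have hζq : ζ ^ q = 1 := (mem_nthRootsFinset hq 1).mp hζ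
    set x : ℂ := (s : ℂ) * (starRingEnd ℂ (ζ * H388SL.refl (rt hq a)) * H388SL.refl (rt hq w)) with hx
    have hxn : ‖x‖ < 1 := by
      rw [hx, norm_mul, norm_mul, RCLike.norm_conj, norm_mul, hζ1, one_mul, Complex.norm_real,
        Real.norm_of_nonneg hs0]
      have h1 : ‖H388SL.refl (rt hq a)‖ * ‖H388SL.refl (rt hq w)‖ ≤ 1 :=
        mul_le_one₀ (norm_refl_le _) (norm_nonneg _) (norm_refl_le _)
      nlinarith [mul_nonneg (norm_nonneg (H388SL.refl (rt hq a))) (norm_nonneg (H388SL.refl (rt hq w)))]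
    have h2 := sum_rot hq hxn
    have h3 : ∀ η ∈ nthRootsFinset q (1:ℂ),
        -Real.log ‖1 - (s : ℂ) * (H388SL.refl (ζ * rt hq a) *
          starRingEnd ℂ (H388SL.refl (η * rt hq w)))‖ = -Real.log ‖1 - η * x‖ := by
      intro η hη
      rw [refl_mul_unit hζ1, refl_mul_unit (norm_of_mem_grid hq hη)]
      congr 2
      rw [← RCLike.norm_conj (1 - η * x)]
      congr 1
      rw [hx]
      simp only [map_sub, map_one, map_mul, Complex.conj_conj, Complex.conj_ofReal]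
      ring
    have h4 : (Multiset.map ((fun w_1 => -Real.log ‖1 - (s : ℂ) * (H388SL.refl (ζ * rt hq a) *
        starRingEnd ℂ (H388SL.refl w_1))‖) ∘ fun ζ => ζ * rt hq w) (nthRootsFinset q (1:ℂ)).val).sum =
        ∑ η ∈ nthRootsFinset q (1:ℂ), -Real.log ‖1 - η * x‖ := by
      rw [Finset.sum_eq_multiset_sum]
      congr 1
      exact Multiset.map_congr rfl fun η hη => h3 η hη
    rw [h4, h2]
    congr 2
    rw [← RCLike.norm_conj (1 - x ^ q)]
    congr 1
    rw [hx]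
    simp only [map_sub, map_one, map_mul, map_pow, Complex.conj_conj, Complex.conj_ofReal, mul_pow]
    rw [hζq, one_mul, ← map_pow, ← refl_pow _ _ hq.ne', ← refl_pow _ _ hq.ne', rt_pow, rt_pow]
    push_cast
    ring
  have h5 : (Multiset.map ((fun z => (Multiset.map (fun w => -Real.log ‖1 - (s : ℂ) *
      (H388SL.refl z * starRingEnd ℂ (H388SL.refl w))‖) ((zs g).bind fun a =>
      (nthRootsFinset q (1:ℂ)).val.map fun ζ => ζ * rt hq a)).sum) ∘ fun ζ => ζ * rt hq a)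
        (nthRootsFinset q (1:ℂ)).val).sum = ∑ ζ ∈ nthRootsFinset q (1:ℂ),
        ((zs g).map fun w => -Real.log ‖1 - ((s ^ q : ℝ) : ℂ) *
        (H388SL.refl a * starRingEnd ℂ (H388SL.refl w))‖).sum := by
    rw [Finset.sum_eq_multiset_sum]
    congr 1
    exact Multiset.map_congr rfl fun η hη => key η hη
  rw [h5, Finset.sum_const, card_grid hq, nsmul_eq_mul]

end Pool.Agent.R383.Disc
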