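import Mathlib
import Pool.Agent.R383.Disc.Main

/-!
# The bound in terms of the truncated energy of the zeros and in terms of the discriminant
-/

set_option autoImplicit false

open Finset Polynomial Module IntermediateField Pool.Agent.H388SL Pool.Agent.Y947.DL
  Pool.Agent.Y947.DM Pool.Agent.Y947.DP

namespace Pool.Agent.R383.Disc

/-- monic units -/
theorem monic_case : ∃ c : ℝ, 0 < c ∧ ∀ f : ℤ[X], Irreducible f → f.Monic → |f.coeff 0| = 1 →
    1 < MM f → ∀ B : ℝ, 1 ≤ B → Ep f (1 - 1 / f.natDegree) ≤ f.natDegree * B →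
    c / B ^ 3 ≤ Real.log (MM f) := by
  obtain ⟨c, hc0, hcm⟩ := field_main3
  refine ⟨c, hc0, ?_⟩
  have ind : ∀ n : ℕ, ∀ f : ℤ[X], f.natDegree = n → Irreducible f → f.Monic → |f.coeff 0| = 1 →
      1 < MM f → ∀ B : ℝ, 1 ≤ B → Ep f (1 - 1 / f.natDegree) ≤ f.natDegree * B →
      c / B ^ 3 ≤ Real.log (MM f) := by
    intro n
    induction n using Nat.strong_induction_on with
    | _ n ih =>
      intro f hfn hf hm hf0 hM B hB hE
      by_cases hexp : ∃ q : ℕ, q.Prime ∧ ∃ g : ℤ[X], f = expand ℤ q g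
      · obtain ⟨q, hq, g, hg⟩ := hexp
        have hgirr : Irreducible g := of_irreducible_expand hq.ne_zero (by rw [← hg]; exact hf)
        have hgm : g.Monic := by
          have h1 := hm
          rw [hg, Monic, leadingCoeff_expand hq.pos] at h1
          exact h1
        have hMM : MM f = MM g := by rw [hg, MM_expand hq.pos]
        have hg0 : |g.coeff 0| = 1 := by
          rw [hg, coeff_expand hq.pos, if_pos (dvd_zero q), Nat.zero_div] at hf0
          exact hf0
        have hg1 : g.natDegree ≠ 0 := natDegree_ne (by rw [← hMM]; exact hM) hgm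
        have hgpos : 0 < g.natDegree := Nat.pos_of_ne_zero hg1
        have hdeg : f.natDegree = g.natDegree * q := by rw [hg, natDegree_expand]
        have hgd : g.natDegree < n := by
          rw [← hfn, hdeg]
          have := hq.two_le
          nlinarith
        have hm1 : (1:ℝ) ≤ g.natDegree := by exact_mod_cast hgpos
        have hq1 : (1:ℝ) ≤ q := by exact_mod_cast hq.one_lt.le
        have hmq : (1:ℝ) ≤ g.natDegree * q := by nlinarith
        have hinv : 1 / ((g.natDegree : ℝ) * q) ≤ 1 := by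
          rw [div_le_one (by positivity)]; exact hmq
        have hinv0 : 0 < 1 / ((g.natDegree : ℝ) * q) := by positivity
        have hE2 : Ep g (1 - 1 / g.natDegree) ≤ g.natDegree * B := by
          have h1 : Ep f (1 - 1 / f.natDegree) = q * Ep g ((1 - 1 / f.natDegree) ^ q) := by
            have h2 := Ep_expand hq.pos hgm (s := 1 - 1 / f.natDegree) (by
              rw [hdeg]; push_cast; linarith) (by rw [hdeg]; push_cast; linarith)
            rw [← h2, ← hg]
          rw [h1, hdeg] at hE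
          push_cast at hE
          have h3 : Ep g ((1 - 1 / ((g.natDegree : ℝ) * q)) ^ q) ≤ g.natDegree * B := by
            have h4 : (q:ℝ) * Ep g ((1 - 1 / ((g.natDegree : ℝ) * q)) ^ q) ≤
                q * (g.natDegree * B) := by linarith
            exact le_of_mul_le_mul_left h4 (by linarith)
          refine le_trans ?_ h3
          obtain ⟨z, hz⟩ := exists_zero (by rw [← hMM]; exact hM) hgm
          obtain ⟨hNF, hrep⟩ := exists_rep g hgirr hgm z hz
          rw [Ep_rep hrep, Ep_rep hrep]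
          apply En_mono (fun σ => norm_refl_le _)
          · rw [sub_nonneg, div_le_one (by linarith)]; exact hm1
          · have h5 := one_add_mul_le_pow (show -2 ≤ -(1 / ((g.natDegree : ℝ) * q)) by linarith) q
            have e1 : 1 + (q:ℝ) * -(1 / ((g.natDegree : ℝ) * q)) = 1 - 1 / g.natDegree := by
              field_simp
              ring
            rw [e1, ← sub_eq_add_neg] at h5
            exact h5
          · exact pow_lt_one₀ (by linarith) (by linarith) hq.ne_zero
        have h1 := ih g.natDegree hgd g rfl hgirr hgm hg0 (by rw [← hMM]; exact hM) B hB hE2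
        rw [hMM]
        exact h1
      · push Not at hexp
        obtain ⟨z, hz⟩ := exists_zero hM hm
        obtain ⟨hNF, hrep⟩ := exists_rep f hf hm z hz
        refine rep_main hcm hrep hf0 hM ?_ hB hE
        intro q hq hq2
        exact good_of_witness (hrep.ne_zero hf0) hrep.inj hq hq2 (hrep.witness hq (hexp q hq))
  intro f hf hm hf0 hM B hB hE
  exact ind _ f rfl hf hm hf0 hM B hB hE

/-- the truncated energy of the zeros: pairs of zeros at distance less than `1 / n` are counted
as if they had distance `1 / n` -/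
noncomputable def Tr (f : ℤ[X]) : ℝ :=
  ((zs f).map fun z => ((zs f).map fun w => -Real.log (max ‖z - w‖ (1 / f.natDegree))).sum).sum

section Rep

variable {p : ℤ[X]} {K : Type} [Field K] [NumberField K] {α : K}

lemma natDegree_pos_rep (h : Rep p K α) : 0 < p.natDegree := by
  rw [← h.fin]; exact finrank_pos

lemma Tr_rep (h : Rep p K α) :
    Tr p = ∑ σ : K →ₐ[ℚ] ℂ, ∑ τ : K →ₐ[ℚ] ℂ, -Real.log (max ‖σ α - τ α‖ (1 / p.natDegree)) := by
  unfold Tr
  rw [sum_zs h]
  refine Finset.sum_congr rfl fun σ _ => ?_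
  rw [sum_zs h]

lemma Ep_le_Tr (h : Rep p K α) (hl : lam α ≤ 1) :
    Ep p (1 - 1 / p.natDegree) ≤ Tr p + 3 * p.natDegree := by
  have hn0 : (0:ℝ) < p.natDegree := by exact_mod_cast natDegree_pos_rep h
  have hn1 : (1:ℝ) ≤ p.natDegree := by exact_mod_cast natDegree_pos_rep h
  have hcard : (Fintype.card (K →ₐ[ℚ] ℂ) : ℝ) = p.natDegree := by
    rw [← h.fin]; exact_mod_cast AlgHom.card ℚ K ℂ
  rw [Ep_rep h, Tr_rep h]
  unfold En
  obtain ⟨n, hn⟩ : ∃ n : ℝ, n = p.natDegree := ⟨_, rfl⟩
  rw [← hn] at hn0 hn1 hcard ⊢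
  have hinv : 0 < 1 / n := by positivity
  have hinv1 : 1 / n ≤ 1 := by rw [div_le_one hn0]; exact hn1
  have h1 : ∀ σ ∈ (Finset.univ : Finset (K →ₐ[ℚ] ℂ)), ∀ τ ∈ (Finset.univ : Finset (K →ₐ[ℚ] ℂ)),
      -Real.log ‖1 - ((1 - 1 / n : ℝ) : ℂ) * (H388SL.refl (σ α) * starRingEnd ℂ (H388SL.refl (τ α)))‖ ≤
      -Real.log (max ‖σ α - τ α‖ (1 / n)) + Real.log (max 1 ‖σ α‖) + Real.log (max 1 ‖τ α‖) + 1 / n := by
    intro σ _ τ _
    have hb : ‖H388SL.refl (σ α) * starRingEnd ℂ (H388SL.refl (τ α))‖ ≤ 1 := by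
      rw [norm_mul, RCLike.norm_conj]
      exact mul_le_one₀ (norm_refl_le _) (norm_nonneg _) (norm_refl_le _)
    have h2 := norm_one_sub_ge (show (0:ℝ) ≤ 1 - 1 / n by linarith) hb
    rcases le_or_gt (1 / n) ‖σ α - τ α‖ with h3 | h3
    · rw [max_eq_left h3]
      have hne : σ α ≠ τ α := by
        intro h4
        rw [h4, sub_self, norm_zero] at h3
        linarith
      have h5 := pair_log hne (show (0:ℝ) ≤ 1 - 1 / n by linarith) (by linarith)
      linarith
    · rw [max_eq_right h3.le]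
      have h4 : Real.log (1 / n) ≤ Real.log ‖1 - ((1 - 1 / n : ℝ) : ℂ) *
          (H388SL.refl (σ α) * starRingEnd ℂ (H388SL.refl (τ α)))‖ := by
        apply Real.log_le_log hinv
        linarith
      have h5 : 0 ≤ Real.log (max 1 ‖σ α‖) := Real.log_nonneg (le_max_left _ _)
      have h6 : 0 ≤ Real.log (max 1 ‖τ α‖) := Real.log_nonneg (le_max_left _ _)
      linarith
  refine (Finset.sum_le_sum fun σ hσ => Finset.sum_le_sum fun τ hτ => h1 σ hσ τ hτ).trans ?_
  have e3 : ∑ σ : K →ₐ[ℚ] ℂ, Real.log (max 1 ‖σ α‖) = lam α := rfl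
  simp only [Finset.sum_add_distrib, Finset.sum_const, Finset.card_univ, nsmul_eq_mul, hcard,
    ← Finset.mul_sum, e3]
  have e4 : n * (n * (1 / n)) = n := by field_simp
  rw [e4]
  nlinarith

/-- the discriminant in terms of the conjugates -/
lemma discr_rep (h : Rep p K α) [DecidableEq (K →ₐ[ℚ] ℂ)] :
    |(p.discr : ℝ)| = ∏ σ : K →ₐ[ℚ] ℂ, ∏ τ ∈ Finset.univ.erase σ, ‖σ α - τ α‖ := by
  have hpos := natDegree_pos_rep h
  have hm : p.Monic := by rw [← h.minp]; exact minpoly.monic h.isInt
  have hinj : Function.Injective (Int.castRingHom ℂ) := RingHom.injective_int _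
  have hdeg : (p.map (Int.castRingHom ℂ)).natDegree = p.natDegree :=
    natDegree_map_eq_of_injective hinj p
  have h1 := resultant_deriv (f := p) (natDegree_pos_iff_degree_pos.mp hpos)
  rw [hm.leadingCoeff, mul_one] at h1
  have h2 := congrArg (Int.castRingHom ℂ) h1
  rw [← resultant_map_map, map_mul, ← derivative_map] at h2
  have h3 := resultant_eq_prod_eval (p.map (Int.castRingHom ℂ))
    (derivative (p.map (Int.castRingHom ℂ))) (p.natDegree - 1) (by
      refine (natDegree_derivative_le _).trans ?_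
      rw [hdeg]) (IsAlgClosed.splits _)
  rw [hdeg, (hm.map _).leadingCoeff, one_pow, one_mul] at h3
  rw [h3] at h2
  have h4 := congrArg norm h2
  rw [norm_mul, map_pow, norm_pow] at h4
  have h5 : ‖(Int.castRingHom ℂ) (-1)‖ = 1 := by simp
  have h6 : ‖(Int.castRingHom ℂ) p.discr‖ = |(p.discr : ℝ)| := by
    rw [eq_intCast, Complex.norm_intCast]
  rw [h5, one_pow, one_mul, h6] at h4
  rw [← h4]
  have h7 : (p.map (Int.castRingHom ℂ)).roots = Finset.univ.val.map (fun τ : K →ₐ[ℚ] ℂ => τ α) :=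
    zs_rep h
  rw [h7, Multiset.map_map]
  have h8 : (Multiset.map ((fun x => eval x (derivative (p.map (Int.castRingHom ℂ)))) ∘
      fun τ : K →ₐ[ℚ] ℂ => τ α) Finset.univ.val).prod =
      ∏ σ : K →ₐ[ℚ] ℂ, ∏ τ ∈ Finset.univ.erase σ, (σ α - τ α) := by
    rw [Finset.prod_eq_multiset_prod]
    congr 1
    refine Multiset.map_congr rfl fun σ _ => ?_
    rw [Function.comp_apply, h.map_eq, Polynomial.derivative_prod_finset,
      Polynomial.eval_finsetSum]
    rw [Finset.sum_eq_single σ]
    · rw [Polynomial.eval_mul, Polynomial.eval_prod]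
      simp
    · intro τ _ hτ
      rw [Polynomial.eval_mul, Polynomial.eval_prod]
      rw [Finset.prod_eq_zero (i := σ)]
      · simp
      · simp [Ne.symm hτ]
      · simp
    · simp
  rw [h8, norm_prod]
  refine Finset.prod_congr rfl fun σ _ => ?_
  rw [norm_prod]

lemma Tr_le_discr (h : Rep p K α) :
    Tr p ≤ p.natDegree * Real.log p.natDegree - Real.log |(p.discr : ℝ)| := by
  classical
  have hn0 : (0:ℝ) < p.natDegree := by exact_mod_cast natDegree_pos_rep h
  have hcard : (Fintype.card (K →ₐ[ℚ] ℂ) : ℝ) = p.natDegree := by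
    rw [← h.fin]; exact_mod_cast AlgHom.card ℚ K ℂ
  have hne : ∀ σ : K →ₐ[ℚ] ℂ, ∀ τ ∈ Finset.univ.erase σ, ‖σ α - τ α‖ ≠ 0 := by
    intro σ τ hτ h0
    exact (Finset.ne_of_mem_erase hτ) (h.inj (sub_eq_zero.mp (norm_eq_zero.mp h0))).symm
  rw [Tr_rep h, discr_rep h, Real.log_prod (fun σ _ => Finset.prod_ne_zero_iff.mpr (hne σ))]
  rw [← hcard, ← nsmul_eq_mul, ← Finset.card_univ, ← Finset.sum_const, ← Finset.sum_sub_distrib]
  refine Finset.sum_le_sum fun σ _ => ?_
  rw [Real.log_prod (hne σ), ← Finset.add_sum_erase _ _ (Finset.mem_univ σ), sub_self, norm_zero,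
    sub_eq_add_neg, ← Finset.sum_neg_distrib]
  apply add_le_add
  · rw [max_eq_right (by positivity), one_div, Real.log_inv, neg_neg, Finset.card_univ]
  · refine Finset.sum_le_sum fun τ hτ => ?_
    rw [neg_le_neg_iff]
    apply Real.log_le_log
    · exact lt_of_le_of_ne (norm_nonneg _) (hne σ τ hτ).symm
    · exact le_max_left _ _

end Rep

lemma zs_neg (f : ℤ[X]) : zs (-f) = zs f := by
  unfold zs
  rw [Polynomial.map_neg, Polynomial.roots_neg]

lemma Tr_neg (f : ℤ[X]) : Tr (-f) = Tr f := by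
  unfold Tr
  rw [zs_neg, natDegree_neg]

/-- the general irreducible case, truncated energy -/
theorem irr_case : ∃ c : ℝ, 0 < c ∧ ∀ f : ℤ[X], Irreducible f → 1 < MM f →
    ∀ A : ℝ, 0 ≤ A → Tr f ≤ A * f.natDegree → c / (1 + A) ^ 3 ≤ Real.log (MM f) := by
  obtain ⟨c1, hc1, hc⟩ := monic_case
  have hlog2 : 0 < Real.log 2 := Real.log_pos (by norm_num)
  set c := min (c1 / 27) (Real.log 2) with hcdef
  have hc0 : 0 < c := lt_min (by positivity) hlog2
  refine ⟨c, hc0, ?_⟩
  intro f hf hM A hA hT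
  have hbigc : c / (1 + A) ^ 3 ≤ c := div_le_self hc0.le (one_le_pow₀ (by linarith))
  have hcmp : c / (1 + A) ^ 3 ≤ c1 / (3 + A) ^ 3 := by
    have h1 : c ≤ c1 / 27 := min_le_left _ _
    have h2 : (3 + A) ^ 3 ≤ 27 * (1 + A) ^ 3 := by
      have h3 : (3 + A) ^ 3 ≤ (3 * (1 + A)) ^ 3 := pow_le_pow_left₀ (by linarith) (by linarith) 3
      calc (3 + A) ^ 3 ≤ (3 * (1 + A)) ^ 3 := h3
        _ = 27 * (1 + A) ^ 3 := by ring
    rw [div_le_div_iff₀ (by positivity) (by positivity)]
    calc c * (3 + A) ^ 3 ≤ (c1 / 27) * (27 * (1 + A) ^ 3) := by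
          apply mul_le_mul h1 h2 (by positivity) (by positivity)
      _ = c1 * (1 + A) ^ 3 := by ring
  by_cases hbig : 2 ≤ MM f
  · have h1 : c ≤ Real.log 2 := min_le_right _ _
    have h2 : Real.log 2 ≤ Real.log (MM f) := Real.log_le_log (by norm_num) hbig
    linarith
  push Not at hbig
  have hf0 : f ≠ 0 := hf.ne_zero
  have hlc : |f.leadingCoeff| = 1 := by
    have h1 : 1 ≤ |f.leadingCoeff| := Int.one_le_abs (leadingCoeff_ne_zero.mpr hf0)
    have h3 := leadingCoeff_le_MM f
    by_contra hne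
    have h2 : 2 ≤ |f.leadingCoeff| := by omega
    have h4 : (2:ℝ) ≤ |(f.leadingCoeff : ℝ)| := by exact_mod_cast h2
    linarith
  have hcc : |f.coeff 0| = 1 := by
    have h0 : f.coeff 0 ≠ 0 := by
      intro h
      have hdvd : (X : ℤ[X]) ∣ f := X_dvd_iff.mpr h
      obtain ⟨g, hg⟩ := hdvd
      rcases hf.isUnit_or_isUnit hg with h1 | h1
      · exact Polynomial.not_isUnit_X h1
      · have h2 : MM f = 1 := by
          rw [hg, MM_mul]
          obtain ⟨r, hr, hrg⟩ := Polynomial.isUnit_iff.mp h1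
          have h3 : MM (X : ℤ[X]) = 1 := by
            rw [MM, Polynomial.map_X]
            have := mahlerMeasure_X_sub_C 0
            simpa using this
          have h4 : MM g = 1 := by
            rw [← hrg, MM, Polynomial.map_C, mahlerMeasure_const, eq_intCast, Complex.norm_intCast]
            rcases Int.isUnit_iff.mp hr with h5 | h5 <;> simp [h5]
          rw [h3, h4, one_mul]
        linarith
    have h1 : 1 ≤ |f.coeff 0| := Int.one_le_abs h0
    have h3 := coeff_zero_le_MM f
    by_contra hne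
    have h2 : 2 ≤ |f.coeff 0| := by omega
    have h4 : (2:ℝ) ≤ |(f.coeff 0 : ℝ)| := by exact_mod_cast h2
    linarith
  have hlam1 : Real.log (MM f) ≤ 1 := by
    have h1 : Real.log (MM f) ≤ Real.log 2 := Real.log_le_log (by linarith) hbig.le
    have := Real.log_two_lt_d9
    linarith
  have key : ∀ g : ℤ[X], Irreducible g → g.Monic → |g.coeff 0| = 1 → 1 < MM g →
      Real.log (MM g) ≤ 1 → Tr g ≤ A * g.natDegree → c1 / (3 + A) ^ 3 ≤ Real.log (MM g) := by
    intro g hg hgm hg0 hgM hgl hgT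
    apply hc g hg hgm hg0 hgM (3 + A) (by linarith)
    obtain ⟨z, hz⟩ := exists_zero hgM hgm
    obtain ⟨hNF, hrep⟩ := exists_rep g hg hgm z hz
    have h1 := Ep_le_Tr hrep (by rw [← hrep.log_MM]; exact hgl)
    linarith
  rcases (abs_eq (by norm_num : (0:ℤ) ≤ 1)).mp hlc with h | h
  · exact hcmp.trans (key f hf h hcc hM hlam1 hT)
  · have h1 := key (-f) (by simpa using (irreducible_units_mul (-1 : ℤ[X]ˣ)).mpr hf) (by
        rw [Monic, leadingCoeff_neg, h]; norm_num) (by rw [coeff_neg, abs_neg]; exact hcc)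
      (by rw [MM_neg]; exact hM) (by rw [MM_neg]; exact hlam1)
      (by rw [Tr_neg, natDegree_neg]; exact hT)
    rw [MM_neg] at h1
    exact hcmp.trans h1

/-- units of small Mahler measure -/
lemma unit_of_lt {f : ℤ[X]} (hf : Irreducible f) (hM : 1 < MM f) (hbig : MM f < 2) :
    |f.leadingCoeff| = 1 ∧ |f.coeff 0| = 1 := by
  have hf0 : f ≠ 0 := hf.ne_zero
  refine ⟨?_, ?_⟩
  · have h1 : 1 ≤ |f.leadingCoeff| := Int.one_le_abs (leadingCoeff_ne_zero.mpr hf0)
    have h3 := leadingCoeff_le_MM f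
    by_contra hne
    have h2 : 2 ≤ |f.leadingCoeff| := by omega
    have h4 : (2:ℝ) ≤ |(f.leadingCoeff : ℝ)| := by exact_mod_cast h2
    linarith
  · have h0 : f.coeff 0 ≠ 0 := by
      intro h
      have hdvd : (X : ℤ[X]) ∣ f := X_dvd_iff.mpr h
      obtain ⟨g, hg⟩ := hdvd
      rcases hf.isUnit_or_isUnit hg with h1 | h1
      · exact Polynomial.not_isUnit_X h1
      · have h2 : MM f = 1 := by
          rw [hg, MM_mul]
          obtain ⟨r, hr, hrg⟩ := Polynomial.isUnit_iff.mp h1
          have h3 : MM (X : ℤ[X]) = 1 := by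
            rw [MM, Polynomial.map_X]
            have := mahlerMeasure_X_sub_C 0
            simpa using this
          have h4 : MM g = 1 := by
            rw [← hrg, MM, Polynomial.map_C, mahlerMeasure_const, eq_intCast, Complex.norm_intCast]
            rcases Int.isUnit_iff.mp hr with h5 | h5 <;> simp [h5]
          rw [h3, h4, one_mul]
        linarith
    have h1 : 1 ≤ |f.coeff 0| := Int.one_le_abs h0
    have h3 := coeff_zero_le_MM f
    by_contra hne
    have h2 : 2 ≤ |f.coeff 0| := by omega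
    have h4 : (2:ℝ) ≤ |(f.coeff 0 : ℝ)| := by exact_mod_cast h2
    linarith

lemma abs_discr_neg (f : ℤ[X]) (hf : 0 < f.natDegree) : |(-f).discr| = |f.discr| := by
  have h1 := resultant_deriv (f := f) (natDegree_pos_iff_degree_pos.mp hf)
  have hf' : 0 < (-f).natDegree := by rw [natDegree_neg]; exact hf
  have h2 := resultant_deriv (f := -f) (natDegree_pos_iff_degree_pos.mp hf')
  have e : -f = C (-1) * f := by simp
  have e2 : derivative (-f) = C (-1) * derivative f := by rw [derivative_neg]; simp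
  rw [natDegree_neg, leadingCoeff_neg, e2] at h2
  nth_rw 1 [e] at h2
  rw [resultant_C_mul_left, resultant_C_mul_right, h1] at h2
  have h3 := congrArg abs h2
  simp only [abs_mul, abs_pow, abs_neg, abs_one, one_pow, one_mul] at h3
  have hl : |f.leadingCoeff| ≠ 0 := by
    rw [Ne, abs_eq_zero, leadingCoeff_eq_zero]
    rintro rfl; simp at hf
  exact (mul_left_cancel₀ hl h3).symm

lemma disc_mono {f : ℤ[X]} (hf : Irreducible f) (hm : f.Monic) (hM : 1 < MM f) :
    Tr f ≤ f.natDegree * Real.log f.natDegree - Real.log |(f.discr : ℝ)| := by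
  obtain ⟨z, hz⟩ := exists_zero hM hm
  obtain ⟨hNF, hrep⟩ := exists_rep f hf hm z hz
  exact Tr_le_discr hrep

/-- the general irreducible case, discriminant -/
theorem irr_disc : ∃ c : ℝ, 0 < c ∧ ∀ f : ℤ[X], Irreducible f → 1 < MM f →
    ∀ A : ℝ, 0 ≤ A → f.natDegree * Real.log f.natDegree - Real.log |(f.discr : ℝ)| ≤
      A * f.natDegree → c / (1 + A) ^ 3 ≤ Real.log (MM f) := by
  obtain ⟨c1, hc1, hc⟩ := irr_case
  have hlog2 : 0 < Real.log 2 := Real.log_pos (by norm_num)
  set c := min c1 (Real.log 2) with hcdef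
  have hc0 : 0 < c := lt_min hc1 hlog2
  refine ⟨c, hc0, ?_⟩
  intro f hf hM A hA hT
  by_cases hbig : 2 ≤ MM f
  · have hbigc : c / (1 + A) ^ 3 ≤ c := div_le_self hc0.le (one_le_pow₀ (by linarith))
    have h1 : c ≤ Real.log 2 := min_le_right _ _
    have h2 : Real.log 2 ≤ Real.log (MM f) := Real.log_le_log (by norm_num) hbig
    linarith
  push Not at hbig
  obtain ⟨hlc, hcc⟩ := unit_of_lt hf hM hbig
  have hcmp : c / (1 + A) ^ 3 ≤ c1 / (1 + A) ^ 3 :=
    div_le_div_of_nonneg_right (min_le_left _ _) (by positivity)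
  refine hcmp.trans ?_
  apply hc f hf hM A hA
  refine le_trans ?_ hT
  rcases (abs_eq (by norm_num : (0:ℤ) ≤ 1)).mp hlc with h | h
  · exact disc_mono hf h hM
  · have h1 := disc_mono (f := -f) (by simpa using (irreducible_units_mul (-1 : ℤ[X]ˣ)).mpr hf) (by
        rw [Monic, leadingCoeff_neg, h]; norm_num) (by rw [MM_neg]; exact hM)
    rw [Tr_neg, natDegree_neg] at h1
    have h0 : f.natDegree ≠ 0 := by
      have := natDegree_ne (f := -f) (by rw [MM_neg]; exact hM) (by
        rw [Monic, leadingCoeff_neg, h]; norm_num)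
      rwa [natDegree_neg] at this
    have h2 : |((-f).discr : ℝ)| = |(f.discr : ℝ)| := by
      exact_mod_cast abs_discr_neg f (Nat.pos_of_ne_zero h0)
    rwa [h2] at h1

end Pool.Agent.R383.Disc
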